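import Mathlib
import Pool.Agent.Helper10.Koszul

/-!
# CAN-C2: reordering supercommuting letters (MP_5f0950_ag)
-/

universe w

open Finset

namespace Pool.Agent.Helper11.Can

open Pool.Agent.Helper10

/-- the two lists of letters are permutations of each other -/
lemma reorder_perm {ι I : Type*} [Fintype I] {s : ℕ} (ε : Fin s ≃ I)
    {b : I → ℕ} {m : ℕ} (σ : Fin m × Fin 2 ≃ Σ r : I, Fin (b r)) (u : I → ι)
    (v : (Σ r : I, Fin (b r)) → ι) :
    (List.ofFn fun j : Fin s =>
      u (ε j) :: List.ofFn fun i : Fin (b (ε j)) => v ⟨ε j, i⟩).flatten.Perm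
    ((List.ofFn fun j : Fin s => u (ε j)) ++
      (List.ofFn fun x : Fin m => [v (σ (x, 0)), v (σ (x, 1))]).flatten) := by
  classical
  rw [List.perm_iff_count]
  intro a
  rw [count_ofFn_flatten, List.count_append, count_ofFn_flatten, count_ofFn]
  have h1 : ∀ j : Fin s, (u (ε j) :: List.ofFn fun i : Fin (b (ε j)) => v ⟨ε j, i⟩).count a =
      (if u (ε j) = a then 1 else 0) + ∑ i : Fin (b (ε j)), if v ⟨ε j, i⟩ = a then 1 else 0 := by
    intro j
    rw [List.count_cons, count_ofFn, add_comm]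
    simp
  have h2 : ∀ x : Fin m, ([v (σ (x, 0)), v (σ (x, 1))]).count a =
      ∑ i : Fin 2, if v (σ (x, i)) = a then 1 else 0 := by
    intro x
    rw [Fin.sum_univ_two, List.count_cons, List.count_cons, List.count_nil, zero_add, add_comm]
    simp
  rw [sum_congr rfl fun j _ => h1 j, sum_congr rfl fun x _ => h2 x, sum_add_distrib]
  congr 1
  rw [← Fintype.sum_prod_type' (f := fun (x : Fin m) (i : Fin 2) =>
      if v (σ (x, i)) = a then 1 else 0),
    σ.sum_comp (fun q => if v q = a then 1 else 0),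
    ε.sum_comp (fun r => ∑ i : Fin (b r), if v ⟨r, i⟩ = a then 1 else 0), Fintype.sum_sigma]

/-- CAN-C2: reordering supercommuting letters -/
theorem exists_reorder (A : Type w) [Ring A] {I : Type} [Fintype I] {s : ℕ} (ε : Fin s ≃ I)
    {b : I → ℕ} {m : ℕ} (σ : Fin m × Fin 2 ≃ Σ r : I, Fin (b r))
    (sg : I ⊕ (Σ r : I, Fin (b r)) → I ⊕ (Σ r : I, Fin (b r)) → ℤ)
    (hsg : ∀ x y, sg x y = 1 ∨ sg x y = -1) :
    ∃ c : ℤ, (c = 1 ∨ c = -1) ∧ ∀ L : I ⊕ (Σ r : I, Fin (b r)) → A,
      (∀ x y, L x * L y = sg x y • (L y * L x)) →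
      (List.ofFn fun j : Fin s => L (.inl (ε j)) *
        (List.ofFn fun i : Fin (b (ε j)) => L (.inr ⟨ε j, i⟩)).prod).prod =
      c • ((List.ofFn fun j : Fin s => L (.inl (ε j))).prod *
        (List.ofFn fun x : Fin m => L (.inr (σ (x, 0))) * L (.inr (σ (x, 1)))).prod) := by
  obtain ⟨c, hc, h⟩ := exists_sign_perm A sg hsg
    (reorder_perm ε σ (Sum.inl : I → I ⊕ (Σ r : I, Fin (b r))) Sum.inr)
  refine ⟨c, hc, fun L hL => ?_⟩
  have h2 := h L hL
  simp only [List.map_flatten, List.prod_flatten, List.map_ofFn, Function.comp_def,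
    List.map_append, List.prod_append, List.map_cons, List.prod_cons, List.map_nil,
    List.prod_nil, mul_one] at h2
  exact h2

end Pool.Agent.Helper11.Can
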